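import Pool.Agent.Q86.SymCore
import Pool.Agent.Q86.SymDefs

/-!
# Polynomials whose differential operators have norm equal to the spectral radius on all balls
-/

set_option autoImplicit false

open Filter Topology Set MeasureTheory Pool.Agent.Q86.Sym
open scoped BoundedContinuousFunction InnerProductSpace ContDiff SchwartzMap FourierTransform

noncomputable section

namespace Pool.Agent.Results.MP_c23f48_an.Ridge

variable {n : ℕ}

/-- the exponential `e^{i⟨x,ξ⟩}` -/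
def eb (ξ : EE n) : EE n →ᵇ ℂ :=
  BoundedContinuousFunction.ofNormedAddCommGroup
    (fun x => Complex.exp ((⟪x, ξ⟫_ℝ : ℂ) * Complex.I)) (by fun_prop) 1
    (fun x => by rw [Complex.norm_exp_ofReal_mul_I])

lemma eb_apply (ξ x : EE n) : eb ξ x = Complex.exp ((⟪x, ξ⟫_ℝ : ℂ) * Complex.I) := rfl

lemma eb_norm_le (ξ : EE n) : ‖eb ξ‖ ≤ 1 :=
  BoundedContinuousFunction.norm_ofNormedAddCommGroup_le _ zero_le_one _

/-- the norm bound for `τ(D)` gives a functional -/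
lemma exists_functional (τ : MvPolynomial (Fin n) ℂ) (K : Set (EE n)) (M : ℝ) (hM : 0 ≤ M)
    (h : ∀ f, InB K f → ∀ x, ‖tauD τ f x‖ ≤ M * ⨆ y, ‖f y‖) :
    ∃ L : (EE n →ᵇ ℂ) →L[ℂ] ℂ, (∀ g, ‖L g‖ ≤ M * ‖g‖) ∧ ∀ ξ ∈ K, L (eb ξ) = tv τ ξ := by
  classical
  let Φ : (K →₀ ℂ) →ₗ[ℂ] (EE n →ᵇ ℂ) := Finsupp.linearCombination ℂ (fun ξ : K => eb (ξ : EE n))
  let ℓ : (K →₀ ℂ) →ₗ[ℂ] ℂ := Finsupp.linearCombination ℂ (fun ξ : K => tv τ (ξ : EE n))
  have hb : ∀ c, ‖ℓ c‖ ≤ M * ‖Φ c‖ := by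
    intro c
    have h1 := h (tps c.support (fun j => c j) (fun ξ : K => (ξ : EE n)))
      (tps_inB K _ _ _ fun j _ => j.2) 0
    have e1 : tauD τ (tps c.support (fun j => c j) (fun ξ : K => (ξ : EE n))) 0 = ℓ c := by
      rw [tauD_tps, tps]
      show _ = Finsupp.linearCombination ℂ (fun ξ : K => tv τ (ξ : EE n)) c
      rw [Finsupp.linearCombination_apply, Finsupp.sum]
      refine Finset.sum_congr rfl fun j _ => ?_
      simp
    have e2 : ∀ y, tps c.support (fun j => c j) (fun ξ : K => (ξ : EE n)) y = Φ c y := by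
      intro y
      show _ = (Finsupp.linearCombination ℂ (fun ξ : K => eb (ξ : EE n)) c) y
      rw [Finsupp.linearCombination_apply, Finsupp.sum, BoundedContinuousFunction.coe_sum,
        Finset.sum_apply]
      rfl
    rw [e1] at h1
    refine h1.trans (mul_le_mul_of_nonneg_left ?_ hM)
    refine ciSup_le fun y => ?_
    rw [e2]
    exact (Φ c).norm_coe_le_norm y
  obtain ⟨s, hs⟩ := LinearMap.exists_rightInverse_of_surjective Φ.rangeRestrict
    (LinearMap.range_eq_top.2 Φ.surjective_rangeRestrict)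
  have hs' : ∀ y : LinearMap.range Φ, Φ (s y) = (y : EE n →ᵇ ℂ) := by
    intro y
    have := congrArg (fun g : LinearMap.range Φ →ₗ[ℂ] LinearMap.range Φ => ((g y : _) : EE n →ᵇ ℂ)) hs
    simpa using this
  let f0 : LinearMap.range Φ →ₗ[ℂ] ℂ := ℓ.comp s
  have hf0 : ∀ y, ‖f0 y‖ ≤ M * ‖y‖ := by
    intro y
    have := hb (s y)
    rw [hs'] at this
    exact this
  let f : StrongDual ℂ (LinearMap.range Φ) := f0.mkContinuous M hf0
  obtain ⟨L, hL1, hL2⟩ := exists_extension_norm_eq (LinearMap.range Φ) f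
  have hLn : ‖L‖ ≤ M := by
    rw [hL2]
    exact LinearMap.mkContinuous_norm_le f0 hM hf0
  refine ⟨L, fun g => (L.le_opNorm g).trans (mul_le_mul_of_nonneg_right hLn (norm_nonneg _)),
    fun ξ hξ => ?_⟩
  have hmem : eb ξ ∈ LinearMap.range Φ := by
    refine ⟨Finsupp.single ⟨ξ, hξ⟩ 1, ?_⟩
    show Finsupp.linearCombination ℂ (fun ξ : K => eb (ξ : EE n)) (Finsupp.single ⟨ξ, hξ⟩ 1) = _
    rw [Finsupp.linearCombination_single, one_smul]
  have h3 : L (eb ξ) = f ⟨eb ξ, hmem⟩ := hL1 ⟨eb ξ, hmem⟩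
  rw [h3]
  show ℓ (s ⟨eb ξ, hmem⟩) = _
  have h4 : ℓ (s ⟨eb ξ, hmem⟩ - Finsupp.single ⟨ξ, hξ⟩ 1) = 0 := by
    have h5 := hb (s ⟨eb ξ, hmem⟩ - Finsupp.single ⟨ξ, hξ⟩ 1)
    have h6 : Φ (s ⟨eb ξ, hmem⟩ - Finsupp.single ⟨ξ, hξ⟩ 1) = 0 := by
      rw [map_sub, hs']
      show eb ξ - Finsupp.linearCombination ℂ (fun ξ : K => eb (ξ : EE n))
        (Finsupp.single ⟨ξ, hξ⟩ 1) = 0
      rw [Finsupp.linearCombination_single, one_smul, sub_self]
    rw [h6, norm_zero, mul_zero] at h5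
    exact norm_le_zero_iff.1 h5
  rw [map_sub, sub_eq_zero] at h4
  rw [h4]
  show Finsupp.linearCombination ℂ (fun ξ : K => tv τ (ξ : EE n)) (Finsupp.single ⟨ξ, hξ⟩ 1) = _
  rw [Finsupp.linearCombination_single, one_smul]

/-- the polynomial `(s, y) ↦ τ(ξ₀ - s e + y v) / τ(ξ₀)` -/
def HP (τ : MvPolynomial (Fin n) ℂ) (ξ₀ e v : EE n) : Polynomial (Polynomial ℂ) :=
  Polynomial.C (Polynomial.C (tv τ ξ₀)⁻¹) *
    MvPolynomial.aeval (fun i => Polynomial.C (Polynomial.C (ξ₀ i : ℂ) -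
      Polynomial.X * Polynomial.C (e i : ℂ)) + Polynomial.X * Polynomial.C (Polynomial.C (v i : ℂ))) τ

lemma hev_HP (τ : MvPolynomial (Fin n) ℂ) (ξ₀ e v : EE n) (s y : ℝ) :
    hev (HP τ ξ₀ e v) s y = (tv τ ξ₀)⁻¹ * tv τ (ξ₀ - s • e + y • v) := by
  have key : ∀ p : MvPolynomial (Fin n) ℂ,
      Polynomial.eval (y : ℂ) (Polynomial.map (Polynomial.evalRingHom (s : ℂ))
        (MvPolynomial.aeval (fun i => Polynomial.C (Polynomial.C (ξ₀ i : ℂ) -
          Polynomial.X * Polynomial.C (e i : ℂ)) +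
          Polynomial.X * Polynomial.C (Polynomial.C (v i : ℂ))) p)) =
      tv p (ξ₀ - s • e + y • v) := by
    intro p
    rw [tv]
    induction p using MvPolynomial.induction_on with
    | C c =>
      rw [MvPolynomial.algHom_C, MvPolynomial.eval_C]
      have : (algebraMap ℂ (Polynomial (Polynomial ℂ))) c = Polynomial.C (Polynomial.C c) := rfl
      rw [this]
      simp
    | add p q hp hq =>
      rw [map_add, Polynomial.map_add, Polynomial.eval_add, hp, hq, map_add]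
    | mul_X p i hp =>
      rw [map_mul, Polynomial.map_mul, Polynomial.eval_mul, hp, map_mul, MvPolynomial.aeval_X,
        MvPolynomial.eval_X]
      congr 1
      simp
      ring
  rw [hev, HP, Polynomial.map_mul, Polynomial.eval_mul, key]
  simp

/-- the main step: tangential invariance at a maximum point -/
lemma tangential (τ : MvPolynomial (Fin n) ℂ) (r : ℝ) (hr : 0 < r) (ξ₀ e v : EE n)
    (he : ‖e‖ = 1) (hv : ‖v‖ = 1) (hev' : ⟪e, v⟫_ℝ = 0) (hξ : ξ₀ = r • e)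
    (hne : tv τ ξ₀ ≠ 0)
    (h : ∀ f, InB (Metric.closedBall (0 : EE n) r) f → ∀ x,
      ‖tauD τ f x‖ ≤ ‖tv τ ξ₀‖ * ⨆ y, ‖f y‖) (s y : ℝ) :
    tv τ (ξ₀ - s • e + y • v) = tv τ (ξ₀ - s • e) := by
  obtain ⟨L, hL1, hL2⟩ := exists_functional τ _ _ (norm_nonneg _) h
  have hpos : 0 < ‖tv τ ξ₀‖ := norm_pos_iff.2 hne
  let Λ : (EE n →ᵇ ℂ) →L[ℂ] ℂ := (tv τ ξ₀)⁻¹ • L.comp (ContinuousLinearMap.mul ℂ (EE n →ᵇ ℂ) (eb ξ₀))
  have hΛ : ∀ g, Λ g = (tv τ ξ₀)⁻¹ * L (eb ξ₀ * g) := fun g => rfl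
  have hn : ∀ g, ‖Λ g‖ ≤ ‖g‖ := by
    intro g
    rw [hΛ, norm_mul, norm_inv]
    have h1 : ‖L (eb ξ₀ * g)‖ ≤ ‖tv τ ξ₀‖ * ‖g‖ := by
      refine (hL1 _).trans (mul_le_mul_of_nonneg_left ?_ (norm_nonneg _))
      refine (norm_mul_le _ _).trans ?_
      have := mul_le_mul_of_nonneg_right (eb_norm_le ξ₀) (norm_nonneg g)
      rwa [one_mul] at this
    calc ‖tv τ ξ₀‖⁻¹ * ‖L (eb ξ₀ * g)‖ ≤ ‖tv τ ξ₀‖⁻¹ * (‖tv τ ξ₀‖ * ‖g‖) :=
          mul_le_mul_of_nonneg_left h1 (by positivity)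
      _ = ‖g‖ := by rw [← mul_assoc, inv_mul_cancel₀ hpos.ne', one_mul]
  have hmem0 : ξ₀ ∈ Metric.closedBall (0 : EE n) r := by
    rw [mem_closedBall_zero_iff, hξ, norm_smul, he, mul_one, Real.norm_eq_abs, abs_of_pos hr]
  have h1 : Λ 1 = 1 := by
    rw [hΛ, mul_one, hL2 ξ₀ hmem0, inv_mul_cancel₀ hne]
  let a : C(EE n, ℝ) := ⟨fun x => ⟪x, e⟫_ℝ, by fun_prop⟩
  let b : C(EE n, ℝ) := ⟨fun x => ⟪x, v⟫_ℝ, by fun_prop⟩
  have hH : ∀ s y : ℝ, 0 ≤ s → s ≤ r → y ^ 2 ≤ 2 * r * s - s ^ 2 →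
      Λ (ph a b s y) = hev (HP τ ξ₀ e v) s y := by
    intro s y hs hsr hy
    have e1 : eb ξ₀ * ph a b s y = eb (ξ₀ - s • e + y • v) := by
      ext x
      have : (eb ξ₀ * ph a b s y) x = eb ξ₀ x * ph a b s y x := rfl
      rw [this, eb_apply, eb_apply, ph_apply, ← Complex.exp_add]
      congr 1
      have e2 : ⟪x, ξ₀ - s • e + y • v⟫_ℝ = ⟪x, ξ₀⟫_ℝ + (-s * ⟪x, e⟫_ℝ + y * ⟪x, v⟫_ℝ) := by
        rw [inner_add_right, inner_sub_right, real_inner_smul_right, real_inner_smul_right]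
        ring
      rw [e2]
      show _ + ((-s * ⟪x, e⟫_ℝ + y * ⟪x, v⟫_ℝ : ℝ) : ℂ) * Complex.I = _
      push_cast
      ring
    rw [hΛ, e1, hev_HP, hL2]
    rw [mem_closedBall_zero_iff]
    have e3 : ‖ξ₀ - s • e + y • v‖ ^ 2 = (r - s) ^ 2 + y ^ 2 := by
      have e4 : ξ₀ - s • e + y • v = (r - s) • e + y • v := by rw [hξ, sub_smul]
      rw [e4, norm_add_sq_real, norm_smul, norm_smul, he, hv, real_inner_smul_left,
        real_inner_smul_right, hev', Real.norm_eq_abs, Real.norm_eq_abs]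
      simp only [mul_one, mul_zero, add_zero, sq_abs]
    refine abs_le_of_sq_le_sq' ?_ hr.le |>.2
    rw [e3]
    nlinarith
  have hfin := indep a b Λ hn h1 (HP τ ξ₀ e v) r hr hH s y
  rw [hev_HP, hev_HP, zero_smul, add_zero] at hfin
  exact mul_left_cancel₀ (inv_ne_zero hne) hfin

/-- the restriction of `τ` to a line through the origin -/
def line (τ : MvPolynomial (Fin n) ℂ) (e : EE n) : Polynomial ℂ :=
  MvPolynomial.aeval (fun i => Polynomial.X * Polynomial.C (e i : ℂ)) τ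

lemma line_eval (τ : MvPolynomial (Fin n) ℂ) (e : EE n) (c : ℝ) :
    (line τ e).eval (c : ℂ) = tv τ (c • e) := by
  rw [line, tv]
  induction τ using MvPolynomial.induction_on with
  | C a =>
    rw [MvPolynomial.algHom_C, MvPolynomial.eval_C]
    simp
  | add p q hp hq =>
    rw [map_add, Polynomial.eval_add, hp, hq, map_add]
  | mul_X p i hp =>
    rw [map_mul, Polynomial.eval_mul, hp, map_mul, MvPolynomial.aeval_X, MvPolynomial.eval_X]
    congr 1
    simp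
    ring

lemma tv_cont (τ : MvPolynomial (Fin n) ℂ) : Continuous (tv τ) := by
  unfold tv
  simp_rw [MvPolynomial.eval_eq']
  fun_prop

/-- **Theorem.** If the norm of `τ(D)` on `B(K)` equals `max_K |τ|` for every closed ball `K`
centred at the origin, then `τ` is a ridge polynomial. -/
theorem result (n : ℕ) (τ : MvPolynomial (Fin n) ℂ)
    (h : ∀ r : ℝ, 0 < r → opN τ (Metric.closedBall 0 r) = maxAbs τ (Metric.closedBall 0 r)) :
    IsRidge τ := by
  by_cases hcase : ∀ ξ : EE n, ‖tv τ ξ‖ ≤ ‖tv τ 0‖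
  · -- bounded polynomials are constant
    refine ⟨0, Polynomial.C (tv τ 0), fun ξ => ?_⟩
    rw [Polynomial.eval_C]
    by_contra hne
    have hdeg : 0 < (line τ ξ).degree := by
      by_contra hd
      push Not at hd
      have h1 := Polynomial.eq_C_of_degree_le_zero hd
      have h2 := line_eval τ ξ 1
      have h3 := line_eval τ ξ 0
      rw [h1, Polynomial.eval_C] at h2 h3
      rw [one_smul] at h2
      rw [zero_smul] at h3
      exact hne (h2.symm.trans h3)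
    have h4 : Tendsto (fun c : ℝ => ‖((c : ℝ) : ℂ)‖) atTop atTop := by
      simp_rw [Complex.norm_real, Real.norm_eq_abs]
      exact tendsto_abs_atTop_atTop
    have h5 := Polynomial.tendsto_norm_atTop (line τ ξ) hdeg h4
    have h6 := h5.eventually (eventually_gt_atTop ‖tv τ 0‖)
    obtain ⟨c, hc⟩ := h6.exists
    rw [line_eval] at hc
    exact absurd (hcase (c • ξ)) (not_le.2 hc)
  · push Not at hcase
    obtain ⟨ξ₁, hξ₁⟩ := hcase
    obtain ⟨ξ₀, hξ₀, hmax⟩ := (isCompact_closedBall (0 : EE n) ‖ξ₁‖).exists_isMaxOn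
      ⟨ξ₁, by rw [mem_closedBall_zero_iff]⟩ (tv_cont τ).norm.continuousOn
    have hbig : ‖tv τ ξ₁‖ ≤ ‖tv τ ξ₀‖ := hmax (by
      show ξ₁ ∈ Metric.closedBall (0 : EE n) ‖ξ₁‖
      rw [mem_closedBall_zero_iff])
    have hne0 : ξ₀ ≠ 0 := by
      rintro rfl
      linarith
    have hne : tv τ ξ₀ ≠ 0 := by
      rw [← norm_pos_iff]
      exact lt_of_le_of_lt (norm_nonneg _) (hξ₁.trans_le hbig)
    set r : ℝ := ‖ξ₀‖ with hrdef
    have hr : 0 < r := norm_pos_iff.2 hne0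
    have hsub : Metric.closedBall (0 : EE n) r ⊆ Metric.closedBall 0 ‖ξ₁‖ :=
      Metric.closedBall_subset_closedBall (mem_closedBall_zero_iff.1 hξ₀)
    have hMax : maxAbs τ (Metric.closedBall 0 r) = ‖tv τ ξ₀‖ := by
      have hgreat : IsGreatest ((fun ξ : EE n => ‖tv τ ξ‖) '' Metric.closedBall 0 r)
          ‖tv τ ξ₀‖ := by
        refine ⟨⟨ξ₀, by rw [mem_closedBall_zero_iff], rfl⟩, ?_⟩
        rintro _ ⟨ξ, hξ, rfl⟩
        exact hmax (hsub hξ)
      exact hgreat.csSup_eq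
    have hop := h r hr
    rw [hMax] at hop
    set S : Set ℝ := {C : ℝ | 0 ≤ C ∧ ∀ f, InB (Metric.closedBall (0 : EE n) r) f → ∀ x,
      ‖tauD τ f x‖ ≤ C * ⨆ y, ‖f y‖} with hS
    have hSne : S.Nonempty := by
      by_contra hemp
      rw [Set.not_nonempty_iff_eq_empty] at hemp
      have : opN τ (Metric.closedBall 0 r) = sInf S := rfl
      rw [this, hemp, Real.sInf_empty] at hop
      exact hne (norm_eq_zero.1 hop.symm)
    have hbound : ∀ f, InB (Metric.closedBall (0 : EE n) r) f → ∀ x,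
        ‖tauD τ f x‖ ≤ ‖tv τ ξ₀‖ * ⨆ y, ‖f y‖ := by
      intro f hf x
      have hsup0 : 0 ≤ ⨆ y, ‖f y‖ := Real.iSup_nonneg fun y => norm_nonneg _
      rcases hsup0.eq_or_lt with h0 | h0
      · obtain ⟨C, hC⟩ := hSne
        have := hC.2 f hf x
        rw [← h0, mul_zero] at this ⊢
        exact this
      · rw [← div_le_iff₀ h0, ← hop]
        refine le_csInf hSne fun C hC => ?_
        rw [div_le_iff₀ h0]
        exact hC.2 f hf x
    -- the unit vector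
    set e : EE n := r⁻¹ • ξ₀ with hedef
    have he : ‖e‖ = 1 := by
      rw [hedef, norm_smul, norm_inv, Real.norm_eq_abs, abs_of_pos hr, ← hrdef,
        inv_mul_cancel₀ hr.ne']
    have hξe : ξ₀ = r • e := by
      rw [hedef, smul_smul, mul_inv_cancel₀ hr.ne', one_smul]
    refine ⟨e, line τ e, fun ξ => ?_⟩
    rw [line_eval]
    set c : ℝ := ⟪e, ξ⟫_ℝ with hc
    set w : EE n := ξ - c • e with hw
    have hew : ⟪e, w⟫_ℝ = 0 := by
      rw [hw, inner_sub_right, real_inner_smul_right, real_inner_self_eq_norm_sq, he, ← hc]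
      ring
    have hξw : ξ = c • e + w := by rw [hw]; abel
    rcases eq_or_ne w 0 with h0 | h0
    · rw [hξw, h0, add_zero]
    · have hw0 : 0 < ‖w‖ := norm_pos_iff.2 h0
      set v : EE n := ‖w‖⁻¹ • w with hvdef
      have hv : ‖v‖ = 1 := by
        rw [hvdef, norm_smul, norm_inv, norm_norm, inv_mul_cancel₀ hw0.ne']
      have hev' : ⟪e, v⟫_ℝ = 0 := by rw [hvdef, real_inner_smul_right, hew, mul_zero]
      have hwv : w = ‖w‖ • v := by
        rw [hvdef, smul_smul, mul_inv_cancel₀ hw0.ne', one_smul]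
      have hfin := tangential τ r hr ξ₀ e v he hv hev' hξe hne hbound (r - c) ‖w‖
      have e5 : ξ₀ - (r - c) • e = c • e := by
        rw [hξe, ← sub_smul]
        congr 1
        ring
      rw [e5, ← hwv, ← hξw] at hfin
      exact hfin

end Pool.Agent.Results.MP_c23f48_an.Ridge
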